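import Mathlib
import Pool.Agent.FFT.FC
import Pool.Agent.FFT.FINF
import Pool.Agent.FFT.MATCH
import Pool.Agent.CMX.Main
import Pool.Agent.CMX.SPL
import Pool.Agent.CMX.DISTEQUI
import Pool.Agent.CMX.FP
import Pool.Agent.CMX.BOX
import Pool.Agent.CMX.KUM
import Pool.Agent.CMX.FLD
import Pool.Agent.CMX.FLIP
import Pool.Agent.CMX.COUNT
import Pool.Agent.CMX.POS

set_option autoImplicit false

/-!
# Almost all Frobenius fields

Let `F_1, ..., F_r` be totally real number fields. For 100 per cent of the tuples `(a_1, ..., a_r)` of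
totally positive integers `a_l` of `F_l` the CM fields `K_l = F_l (√ (- a_l))` have the following
property: for ALL `q` and all Weil `q`-numbers `π_{l,s}` in `K_l` such that (for every `l`) the
numbers `π_{l,s} / conj π_{l,s}` are multiplicatively independent modulo roots of unity, all Tate
weights, of all codimensions, on all products of powers `∏ A_{l,s} ^ n_{l,s}` of abelian varieties
over the field with `q` elements with Weil numbers `π_{l,s}` are disjoint unions of Tate weights of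
codimension one.
-/

namespace Pool.Agent.Results.MP_677d84_ag.AlmostAllFrobeniusFields

open NumberField Finset Module Pool.Agent.FFT
open Pool.Agent.CMX (TotPos Indep p_POS indep_almost p_COUNT p_SPL p_DIST p_EQUI p_FP p_BOX p_FLD
  p_FLIP p_KUM)

/-- the numbers `π s / conj (π s)` are multiplicatively independent modulo roots of unity -/
def MultIndep {K : Type} [Field K] [NumberField K] [IsCMField K] {m : ℕ} (π : Fin m → K) : Prop :=
  ∀ (e : Fin m → ℤ) (N : ℕ), 0 < N →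
    (∏ s, (π s / IsCMField.complexConj K (π s)) ^ e s) ^ N = 1 → e = 0

/-- the tuple `a` is good: all products of powers of abelian varieties over finite fields with
Weil numbers in the fields `F l (√ (- a l))` -/
def Good {Λ : Type} {F : Λ → Type} [∀ l, Field (F l)] (a : ∀ l, F l) : Prop :=
  ∀ (K : Λ → Type) [∀ l, Field (K l)] [∀ l, NumberField (K l)] [∀ l, IsCMField (K l)]
    [∀ l, Algebra (F l) (K l)] (α : ∀ l, K l),
    (∀ l, α l ^ 2 = - algebraMap (F l) (K l) (a l)) →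
    (∀ l, IntermediateField.adjoin (F l) {α l} = ⊤) →
    ∀ (q : ℕ), 0 < q → ∀ (m : Λ → ℕ) (π : ∀ l, Fin (m l) → K l), (∀ l s, IsWeil q (π l s)) →
      (∀ l, MultIndep (π l)) →
      TateByDivisors (K := fun x : Σ l, Fin (m l) => K x.1) q (fun x => π x.1 x.2)

/-- the coordinate vectors in the box of size `H` of the tuples of totally positive integers -/
def Box {r : ℕ} {F : Fin r → Type} [∀ l, Field (F l)] [∀ l, NumberField (F l)]
    {ι : Fin r → Type} [∀ l, Fintype (ι l)] (b : ∀ l, Basis (ι l) ℤ (𝓞 (F l))) (H : ℕ) :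
    Set ((Σ l, ι l) → ℤ) :=
  {x | (∀ i, |x i| ≤ H) ∧ ∀ l, TotPos ((∑ i, x ⟨l, i⟩ • b l i : 𝓞 (F l)) : F l)}

/-- **100 per cent of the Frobenius fields.** -/
theorem result : ∀ (r : ℕ) (F : Fin r → Type) [∀ l, Field (F l)] [∀ l, NumberField (F l)]
    [∀ l, IsTotallyReal (F l)] (ι : Fin r → Type) [∀ l, Fintype (ι l)]
    (b : ∀ l, Basis (ι l) ℤ (𝓞 (F l))) (ε : ℝ), 0 < ε → ∃ H₀ : ℕ, ∀ H : ℕ, H₀ ≤ H →
      (Box b H).Finite ∧ 0 < (Box b H).ncard ∧
      (({x ∈ Box b H | ¬ Good (fun l => ((∑ i, x ⟨l, i⟩ • b l i : 𝓞 (F l)) : F l))}.ncard : ℕ) : ℝ)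
        ≤ ε * ((Box b H).ncard : ℕ) := by
  intro r F _ _ _ ι _ b ε hε
  classical
  obtain ⟨c, hc, H₁, h1⟩ := p_POS (Fin r) F ι b
  obtain ⟨H₂, h2⟩ := indep_almost (p_COUNT p_SPL p_DIST p_EQUI p_FP p_BOX p_FLD)
    (Fin r) F ι b (ε * c) (mul_pos hε hc)
  refine ⟨H₁ + H₂, fun H hH => ?_⟩
  have hfin : {x : (Σ l, ι l) → ℤ | ∀ i, |x i| ≤ H}.Finite := by
    refine (Set.finite_Icc (fun _ => -(H : ℤ)) (fun _ => (H : ℤ))).subset fun x hx => ?_
    rw [Set.mem_Icc]
    exact ⟨fun i => (abs_le.1 (hx i)).1, fun i => (abs_le.1 (hx i)).2⟩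
  have hfB : (Box b H).Finite := hfin.subset fun x hx => hx.1
  have h3 : c * (2 * H + 1 : ℝ) ^ Fintype.card (Σ l, ι l) ≤ ((Box b H).ncard : ℕ) :=
    h1 H (by omega)
  refine ⟨hfB, ?_, ?_⟩
  · have h4 : (0 : ℝ) < ((Box b H).ncard : ℕ) := lt_of_lt_of_le (by positivity) h3
    exact_mod_cast h4
  · have h4 : (({x ∈ Box b H | ¬ Good (fun l => ((∑ i, x ⟨l, i⟩ • b l i : 𝓞 (F l)) :
        F l))}.ncard : ℕ) : ℝ) ≤ (({x : (Σ l, ι l) → ℤ | (∀ i, |x i| ≤ H) ∧
        ¬ Indep (fun l => ((∑ i, x ⟨l, i⟩ • b l i : 𝓞 (F l)) : F l))}.ncard : ℕ) : ℝ) := by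
      refine Nat.cast_le.2 (Set.ncard_le_ncard ?_ (hfin.subset fun x hx => hx.1))
      intro x hx
      refine ⟨hx.1.1, fun hi => hx.2 ?_⟩
      intro K _ _ _ _ α hα hK q hq m π hπ hm
      exact p_FC (p_FINF p_MATCH) (Fin r) K (p_FLIP p_KUM (Fin r) F K _ α hα hK hi) q hq m π hπ hm
    calc _ ≤ _ := h4
      _ ≤ ε * c * (2 * H + 1 : ℝ) ^ Fintype.card (Σ l, ι l) := h2 H (by omega)
      _ = ε * (c * (2 * H + 1 : ℝ) ^ Fintype.card (Σ l, ι l)) := by ring
      _ ≤ ε * ((Box b H).ncard : ℕ) := mul_le_mul_of_nonneg_left h3 hε.le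

end Pool.Agent.Results.MP_677d84_ag.AlmostAllFrobeniusFields
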