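import Mathlib
import Pool.Agent.CMV.OrdFinal

set_option autoImplicit false

namespace Pool.Agent.Results.MP_677d84_ag.AlmostAllOrdinary

open NumberField Module
open Pool.Agent.CMV

/-- **Almost all ordinary abelian varieties over finite fields with multiplication by a CM field.**
There is an absolute constant `C` such that for every CM field `K` with `[L : L₀] ≥ 8`, where `L` is
the Galois closure of `K` and `L₀` the Galois closure of its maximal real subfield, and every prime
`p`: the ordinary Weil numbers in `K` (for all powers `q` of `p`), up to common powers, form a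
finite set; the number of the classes for which not all the Tate classes on all the powers of the
abelian variety are generated by divisor classes is at most `C / √([K : ℚ] [L : L₀])` times
`2 ^ ([K : ℚ] / 2)`; and `2 ^ ([K : ℚ] / 2)` is the number of all classes if `p` splits completely in
`K`. -/
theorem result : ∃ C : ℝ, 0 < C ∧ ∀ (K : Type) [Field K] [NumberField K] [IsCMField K],
    8 * galDeg (maximalRealSubfield K) ≤ galDeg K → ∀ (p : ℕ) [Fact p.Prime],
      Finite (OrdinaryClass p K) ∧
      (Nat.card {c : OrdinaryClass p K // c.IsBad} : ℝ) * √((finrank ℚ K : ℝ) * galDeg K) ≤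
        C * √(galDeg (maximalRealSubfield K) : ℝ) * 2 ^ (finrank ℚ K / 2) ∧
      (SplitsCompletely p K → Nat.card (OrdinaryClass p K) = 2 ^ (finrank ℚ K / 2)) := by
  obtain ⟨C, hC, h⟩ := Pool.Agent.CMV.few_degenerate
  refine ⟨C, hC, ?_⟩
  intro K _ _ _ h8 p _
  refine ⟨finite_class p K, card_bad p K _ ?_, card_class p K⟩
  have h1 := h K h8
  rw [card_types K] at h1
  push_cast at h1
  exact h1

end Pool.Agent.Results.MP_677d84_ag.AlmostAllOrdinary
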