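import Mathlib
import Pool.Agent.FFT.FA
import Pool.Agent.FFT.COMBA
import Pool.Agent.FFT.PAR
import Pool.Agent.FFT.SIGNh3
import Pool.Agent.FFT.DISC
import Pool.Agent.FFT.NORM
import Pool.Agent.FFT.FINF
import Pool.Agent.FFT.MATCH

set_option autoImplicit false

/-!
# Frobenius fields of 2-power degree with independent discriminants

Let `K_1, ..., K_r` be CM fields of 2-power degrees such that no non-empty product of their
discriminants is a square, and let `π_j` be a Weil `q`-number in `K_j` all of whose slopes have odd
denominators (for instance an ordinary one). Then all Tate weights, of all codimensions, on all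
products of powers `∏ A_j ^ n_j` of abelian varieties over the field with `q` elements with Weil
numbers `π_j` are disjoint unions of Tate weights of codimension one.
-/

namespace Pool.Agent.Results.MP_677d84_ag.IndependentDiscriminants

open NumberField Module Pool.Agent.FFT

/-- **Tate classes for Frobenius fields of 2-power degree.** -/
theorem result : ∀ (p : ℕ) [Fact p.Prime] (a q : ℕ), 1 ≤ a → q = p ^ a →
    ∀ (r : ℕ) (K : Fin r → Type) [∀ j, Field (K j)] [∀ j, NumberField (K j)]
      [∀ j, IsCMField (K j)], (∀ j, ∃ m : ℕ, finrank ℚ (K j) = 2 ^ m) →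
      (∀ S : Finset (Fin r), S.Nonempty → ¬ IsSquare (∏ j ∈ S, discr (K j))) →
      ∀ π : ∀ j, K j, (∀ j, IsWeil q (π j)) → (∀ j, SlopesPrimeTo p q 2 (π j)) →
        TateByDivisors q π := by
  intro p _ a q ha hq r K _ _ _ h1 h2 π h3 h4
  exact p_FA p_COMBA (p_PAR p_SIGN' p_DISC) p_NORM (p_FINF p_MATCH) p a q ha hq (Fin r) K h1 h2 π
    h3 h4

end Pool.Agent.Results.MP_677d84_ag.IndependentDiscriminants
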